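import Pool.Agent.Q23.HS.Poly

/-!
# Determinants of `(j+k/p) ± (j-k/p)` over a half range, `p = 1 mod 4`

For `p = 1 mod 4` the matrix of the differences is a real symmetric matrix with square `p` and trace
`0`.  After a correction of rank two the same holds for the matrix of the sums.
-/

set_option autoImplicit false

namespace Pool.Agent.Results.MP_fe1d70_nt.OneModFour

/-- `A_p`: the determinant of the matrix with the entries `((j+k)/p) - ((j-k)/p)`,
`1 ≤ j, k ≤ (p - 1) / 2`. -/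
def A (p : ℕ) [Fact p.Prime] : ℤ :=
  Matrix.det (Matrix.of fun j k : Fin ((p - 1) / 2) =>
    legendreSym p ((((j : ℕ) : ℤ) + 1) + (((k : ℕ) : ℤ) + 1))
      - legendreSym p ((((j : ℕ) : ℤ) + 1) - (((k : ℕ) : ℤ) + 1)))

/-- `D_p`, evaluated at elements `x y z w` of a commutative ring `R`: the determinant of the matrix
with the entries `x + ((j+k)/p) + ((j-k)/p) + (j/p) y + (k/p) z + (jk/p) w`,
`1 ≤ j, k ≤ (p - 1) / 2`. -/
def D (p : ℕ) [Fact p.Prime] {R : Type*} [CommRing R] (x y z w : R) : R :=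
  Matrix.det (Matrix.of fun j k : Fin ((p - 1) / 2) =>
    x + (legendreSym p ((((j : ℕ) : ℤ) + 1) + (((k : ℕ) : ℤ) + 1)) : R)
      + (legendreSym p ((((j : ℕ) : ℤ) + 1) - (((k : ℕ) : ℤ) + 1)) : R)
      + (legendreSym p (((j : ℕ) : ℤ) + 1) : R) * y
      + (legendreSym p (((k : ℕ) : ℤ) + 1) : R) * z
      + (legendreSym p ((((j : ℕ) : ℤ) + 1) * (((k : ℕ) : ℤ) + 1)) : R) * w)

/-- **Main result.**  Both identities of Q1, for all primes `p = 1 mod 4`. -/
theorem result : ∀ (p : ℕ) [Fact p.Prime], p % 4 = 1 →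
    A p = (-(p : ℤ)) ^ ((p - 1) / 4) ∧
    ∀ {R : Type*} [CommRing R] (x y z w : R),
      D p x y z w = (-(p : R)) ^ ((p - 5) / 4) *
        (((((p - 1) / 2 : ℕ) : R)) ^ 2 * w * x
          - ((((p - 1) / 2 : ℕ) : R) * y - 1) * ((((p - 1) / 2 : ℕ) : R) * z - 1)) := by
  intro p _ h4
  set n := (p - 1) / 2 with hn
  have hp : p = 2 * n + 1 := by omega
  have h1 : Pool.Agent.Q23.LD.ch p (-1) = 1 := Pool.Agent.Q23.LD.ch_neg_one h4
  refine ⟨?_, ?_⟩
  · obtain ⟨m, hm, hd⟩ := Pool.Agent.Q23.HS.det_DD hp h1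
    have hA : A p = (Pool.Agent.Q23.HS.DD p n).det := by
      rw [A]
      congr 1
      ext j k
      rw [Matrix.of_apply, Pool.Agent.Q23.HS.DD, Matrix.of_apply]
      simp only [legendreSym, Pool.Agent.Q23.LD.ch, Pool.Agent.Q23.HS.ix]
      push_cast
      rfl
    rw [hA, hd]
    congr 1
    omega
  · intro R _ x y z w
    obtain ⟨m, hm, hd⟩ := Pool.Agent.Q23.HS.det_MM4_one hp h1
    have hD : D p x y z w = (Pool.Agent.Q23.HS.MM4 p n x y z w).det := by
      rw [D]
      congr 1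
      ext j k
      rw [Matrix.of_apply, Pool.Agent.Q23.HS.MM4, Matrix.of_apply, Pool.Agent.Q23.HS.SS,
        Matrix.of_apply, Pool.Agent.Q23.HS.bb, Pool.Agent.Q23.HS.bb, ← Int.cast_mul,
        ← Pool.Agent.Q23.LD.ch_mul]
      simp only [legendreSym, Pool.Agent.Q23.LD.ch, Pool.Agent.Q23.HS.ix]
      push_cast
      ring
    rw [hD, hd]
    congr 2
    omega

end Pool.Agent.Results.MP_fe1d70_nt.OneModFour
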