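import Pool.Agent.Q23.CN.Cor

/-!
# The determinant `E_p` for `p = 3 mod 4`

The inverse of the matrix `S` of the sums `(j+k/p) + (j-k/p)` is known up to rank one, its
determinant is found from the factorisation of `S` into matrices of sines and cosines, the class
number enters by Dirichlet's class number formula (proved here for the fields `ℚ(√-p)`), and the
divisibility by sixteen comes from the sign of the product of all `(i/p)(k/p)` over
`1 ≤ i < k`, `i + k ≤ (p - 1) / 2`.
-/

set_option autoImplicit false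

namespace Pool.Agent.Results.MP_fe1d70_nt.ThreeModFour

open NumberField

/-- `E_p`, evaluated at elements `x y w` of a commutative ring `R`: the determinant of the matrix
with the entries `x + ((j+k)/p) + ((j-k)/p) + (j/p) y + (jk/p) w`, `1 ≤ j, k ≤ (p - 1) / 2`. -/
def E (p : ℕ) [Fact p.Prime] {R : Type*} [CommRing R] (x y w : R) : R :=
  Matrix.det (Matrix.of fun j k : Fin ((p - 1) / 2) =>
    x + (legendreSym p ((((j : ℕ) : ℤ) + 1) + (((k : ℕ) : ℤ) + 1)) : R)
      + (legendreSym p ((((j : ℕ) : ℤ) + 1) - (((k : ℕ) : ℤ) + 1)) : R)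
      + (legendreSym p (((j : ℕ) : ℤ) + 1) : R) * y
      + (legendreSym p ((((j : ℕ) : ℤ) + 1) * (((k : ℕ) : ℤ) + 1)) : R) * w)

lemma E_eq {p n : ℕ} [Fact p.Prime] (hp : p = 2 * n + 1) {R : Type*} [CommRing R] (x y w : R) :
    E p x y w = (Pool.Agent.Q23.HS.MM4 p n x y 0 w).det := by
  have hn : (p - 1) / 2 = n := by omega
  subst hn
  rw [E]
  congr 1
  ext j k
  rw [Matrix.of_apply, Pool.Agent.Q23.HS.MM4, Matrix.of_apply, Pool.Agent.Q23.HS.SS,
    Matrix.of_apply, Pool.Agent.Q23.HS.bb, Pool.Agent.Q23.HS.bb, ← Int.cast_mul,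
    ← Pool.Agent.Q23.LD.ch_mul]
  simp only [legendreSym, Pool.Agent.Q23.LD.ch, Pool.Agent.Q23.HS.ix]
  push_cast
  ring

/-- **Main result.**  The answer to Q2: for every prime `p = 3 mod 4`, `p > 3`, there is an integer
`q` such that for every quadratic number field `K` with a square root of `-p` (that is `ℚ(√-p)`),
with the class number `h`, one has
`(-1)^((h+1)/2) E_p = p^((p-3)/4) (n y - 1 + (2 - (2/p)) h (w + x)) - (2/p) 16 q p^((p-7)/4) w x`,
for all elements `x y w` of all commutative rings. -/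
theorem result : ∀ (p : ℕ) [Fact p.Prime], 3 < p → p % 4 = 3 →
    ∃ q : ℤ, ∀ (K : Type) [Field K] [NumberField K], Module.finrank ℚ K = 2 →
      (∃ s : K, s ^ 2 = -(p : K)) →
      Odd (classNumber K) ∧
      ∀ {R : Type*} [CommRing R] (x y w : R),
        (-1) ^ ((classNumber K + 1) / 2) * E p x y w =
          (p : R) ^ ((p - 3) / 4) * ((((p - 1) / 2 : ℕ) : R) * y - 1
            + (2 - (legendreSym p 2 : R)) * (classNumber K : R) * (w + x))
          - (legendreSym p 2 : R) * (16 * (q : R)) * (p : R) ^ ((p - 7) / 4) * (w * x) := by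
  intro p _ h3 h4
  have h7 : 7 ≤ p := by omega
  set n := (p - 1) / 2 with hn
  have hp : p = 2 * n + 1 := by omega
  obtain ⟨r, hr⟩ := Pool.Agent.Q23.HS.sixteen_dvd hp h4
  have h20 : (2 : ZMod p) ≠ 0 := by
    have : ((2 : ℕ) : ZMod p) ≠ 0 := by
      rw [Ne, ZMod.natCast_eq_zero_iff]
      intro h
      have := Nat.le_of_dvd (by norm_num) h
      omega
    simpa using this
  have h2 : legendreSym p 2 = Pool.Agent.Q23.LD.ch p 2 := by
    simp only [legendreSym, Pool.Agent.Q23.LD.ch]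
    push_cast
    rfl
  have hs := Pool.Agent.Q23.LD.ch_sq h20
  refine ⟨Pool.Agent.Q23.LD.ch p 2 * r, ?_⟩
  intro K _ _ hK ⟨s, hs'⟩
  obtain ⟨hodd, hP⟩ := Pool.Agent.Q23.CN.odd_class hp h4 h7 K hK s hs'
  have hH := Pool.Agent.Q23.CN.HH_class hp h4 h7 K hK s hs'
  refine ⟨hodd, ?_⟩
  intro R _ x y w
  rw [E_eq hp, Pool.Agent.Q23.HS.det_MM4_three hp h4 h7, Pool.Agent.Q23.HS.V3, hP, hr, hH, h2]
  have hs2 : (Pool.Agent.Q23.LD.ch p 2 : R) * (Pool.Agent.Q23.LD.ch p 2 : R) = 1 := by
    exact_mod_cast congrArg (Int.cast : ℤ → R) hs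
  have hpm : ((-1 : R) ^ ((classNumber K + 1) / 2)) * (-1 : R) ^ ((classNumber K + 1) / 2) = 1 := by
    rw [← mul_pow]; simp
  push_cast
  generalize (-1 : R) ^ ((classNumber K + 1) / 2) = P at hpm ⊢
  generalize (p : R) ^ ((p - 3) / 4) = A
  generalize (p : R) ^ ((p - 7) / 4) = B
  linear_combination (-(A * (1 - (n : R) * y - (2 - (Pool.Agent.Q23.LD.ch p 2 : R)) * (classNumber K : R)
    * (w + x)) + B * (16 * (r : R)) * (x * w))) * hpm + (16 * (r : R) * B * w * x) * hs2

end Pool.Agent.Results.MP_fe1d70_nt.ThreeModFour
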